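import Pool.Agent.H51.MO.TargetsA

/-!
# mo_modules, row A_EXI: a light formula is satisfied on a small set by a point
-/

set_option autoImplicit false

namespace Pool.Agent.H68.MO

open Finset
open Pool.Agent.H51.MO

theorem sg_cases (c : Bool) : sg c = 1 ∨ sg c = -1 := by
  cases c
  · right
    simp [sg]
  · left
    simp [sg]

theorem prod_cases {ι : Type} (s : Finset ι) (f : ι → ℝ) (h : ∀ i ∈ s, f i = 1 ∨ f i = -1) :
    ∏ i ∈ s, f i = 1 ∨ ∏ i ∈ s, f i = -1 := by
  classical
  induction s using Finset.induction_on with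
  | empty => left; simp
  | insert a s ha ih =>
    rw [prod_insert ha]
    rcases h a (mem_insert_self _ _) with h1 | h1 <;>
      rcases ih fun i hi => h i (mem_insert_of_mem hi) with h2 | h2 <;> rw [h1, h2]
    · left; ring
    · right; ring
    · right; ring
    · left; ring

theorem ys_cases {k b : ℕ} (s : Om k b) (x : Pt k b) : ys s x = 1 ∨ ys s x = -1 := by
  unfold ys
  rcases sg_cases s.2 with h1 | h1 <;>
    rcases prod_cases univ (fun l => sg (x l (s.1 l))) fun l _ => sg_cases _ with h2 | h2 <;>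
    rw [h1, h2]
  · left; ring
  · right; ring
  · right; ring
  · left; ring

theorem pf_AEXI : S_AEXI := by
  intro k b m w e A I I' F hA he hw hL hI hcard
  by_contra hcon
  push Not at hcon
  have hApos : (0 : ℝ) < A.card := by exact_mod_cast hA.card_pos
  -- the products vanish
  have h0 : ∀ x ∈ A, ∑ J ∈ I'.powerset, yJ F J x = 0 := by
    intro x hx
    obtain ⟨u, hu, hu1⟩ := hcon x hx
    have h1 : ys (F u) x = -1 := (ys_cases (F u) x).resolve_left hu1
    have h2 : ∏ u ∈ I', (1 + ys (F u) x) = 0 := prod_eq_zero hu (by rw [h1]; ring)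
    rw [Finset.prod_one_add] at h2
    exact h2
  have h1 : ∑ J ∈ I'.powerset, ∑ x ∈ A, yJ F J x = 0 := by
    rw [sum_comm]
    exact sum_eq_zero h0
  have hmem : ∅ ∈ I'.powerset := mem_powerset.2 (empty_subset _)
  rw [← add_sum_erase _ _ hmem] at h1
  have h2 : ∑ x ∈ A, yJ F ∅ x = A.card := by
    simp [yJ]
  have h3 : ∑ J ∈ I'.powerset.erase ∅, -(e ^ J.card * (A.card : ℝ)) ≤
      ∑ J ∈ I'.powerset.erase ∅, ∑ x ∈ A, yJ F J x := by
    refine sum_le_sum fun J hJ => ?_
    rw [mem_erase, mem_powerset] at hJ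
    have h4 := hL J (Disjoint.mono_left hJ.2 hI) (nonempty_iff_ne_empty.2 hJ.1)
      ((card_le_card hJ.2).trans hcard)
    exact (abs_le.1 h4).1
  have h5 : ∑ J ∈ I'.powerset, e ^ J.card = (1 + e) ^ I'.card := by
    have h6 := Finset.prod_one_add (f := fun _ : Fin m => e) (s := I')
    rw [prod_const] at h6
    rw [h6]
    refine sum_congr rfl fun J _ => ?_
    rw [prod_const]
  rw [← add_sum_erase _ _ hmem, card_empty, pow_zero] at h5
  rw [sum_neg_distrib, ← sum_mul] at h3
  have h7 : (1 + e) ^ I'.card ≤ (1 + e) ^ w := pow_le_pow_right₀ (by linarith) hcard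
  have h8 : ∑ J ∈ I'.powerset.erase ∅, e ^ J.card < 1 := by linarith
  have h9 := mul_lt_mul_of_pos_right h8 hApos
  rw [one_mul] at h9
  rw [h2] at h1
  linarith

end Pool.Agent.H68.MO
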